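import Mathlib

set_option autoImplicit false

namespace Pool.Agent.Results.MP_130313_co.NoLinearConstant

/-- The chromatic number of `F` as a natural number. -/
noncomputable def chi {V : Type} (F : SimpleGraph V) : ℕ := sInf {k : ℕ | F.Colorable k}

/-- `c` is an optimal colouring: a proper colouring that uses exactly `chi F` colours. -/
def IsOptimal {V : Type} (F : SimpleGraph V) (c : F.Coloring (Fin (chi F))) : Prop :=
  Function.Surjective c

/-- The size of the colour class of colour `i` in the colouring `c`. -/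
noncomputable def classSize {V : Type} (F : SimpleGraph V) (c : F.Coloring (Fin (chi F)))
    (i : Fin (chi F)) : ℕ := {v : V | c v = i}.ncard

/-- The minimum, over the optimal colourings of `F`, of the size of the smallest colour class. -/
noncomputable def sigma {V : Type} (F : SimpleGraph V) : ℕ :=
  sInf {m : ℕ | ∃ c : F.Coloring (Fin (chi F)), IsOptimal F c ∧ ∃ i, m = classSize F c i}

/-- The critical chromatic number of `F`. -/
noncomputable def chiCr {V : Type} (F : SimpleGraph V) : ℝ :=
  ((chi F : ℝ) - 1) * (Nat.card V : ℝ) / ((Nat.card V : ℝ) - (sigma F : ℝ))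

/-- The set of all differences `x (i+1) - x i` where `x 0 ≤ x 1 ≤ ...` are the class sizes of an
optimal colouring listed in increasing order (the permutation `e` lists the colours). -/
def diffSet {V : Type} (F : SimpleGraph V) : Set ℕ :=
  {d : ℕ | ∃ c : F.Coloring (Fin (chi F)), IsOptimal F c ∧
    ∃ e : Equiv.Perm (Fin (chi F)), Monotone (fun i => classSize F c (e i)) ∧
    ∃ (i : ℕ) (h : i + 1 < chi F),
      d = classSize F c (e ⟨i + 1, h⟩) - classSize F c (e ⟨i, Nat.lt_of_succ_lt h⟩)}

/-- The statement `hcf(F) = 1` for a graph that is not bipartite: the only common divisor of the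
set of differences is `1`. -/
def HcfOneNonbipartite {V : Type} (F : SimpleGraph V) : Prop :=
  ∀ m : ℕ, (∀ d ∈ diffSet F, m ∣ d) → m = 1

/-- The statement `hcf(F) = 1` for a bipartite graph: the highest common factor of the component
sizes is `1` and the highest common factor of the imbalances of the components is at most `2`. -/
def HcfOneBipartite {V : Type} (F : SimpleGraph V) : Prop :=
  (∀ m : ℕ, (∀ C : F.ConnectedComponent, m ∣ C.supp.ncard) → m = 1) ∧
  (∀ m : ℕ, (∀ (c : F.Coloring Bool) (C : F.ConnectedComponent),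
      (m : ℤ) ∣ ((C.supp ∩ {v | c v = true}).ncard : ℤ) - ((C.supp ∩ {v | c v = false}).ncard : ℤ))
        → m ≤ 2)

/-- The statement `hcf(F) = 1`. -/
def HcfOne {V : Type} (F : SimpleGraph V) : Prop :=
  (F.Colorable 2 → HcfOneBipartite F) ∧ (¬ F.Colorable 2 → HcfOneNonbipartite F)

open Classical in
/-- The parameter `χ*(F)`. -/
noncomputable def chiStar {V : Type} (F : SimpleGraph V) : ℝ :=
  if HcfOne F then chiCr F else (chi F : ℝ)

/-- `G` has a perfect `F`-packing: a family of copies of `F` in `G` (injective homomorphisms)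
such that every vertex of `G` lies in exactly one of them. -/
def HasPerfectPacking {V W : Type} (F : SimpleGraph V) (G : SimpleGraph W) : Prop :=
  ∃ (ι : Type) (φ : ι → (F →g G)), Function.Bijective (fun x : ι × V => φ x.1 x.2)

/-- The least `k` such that every graph on `n` vertices in which all degrees are at least `k`
has a perfect `F`-packing. -/
noncomputable def packingThreshold {V : Type} (F : SimpleGraph V) (n : ℕ) : ℕ :=
  sInf {k : ℕ | ∀ G : SimpleGraph (Fin n),
    (∀ v, k ≤ (G.neighborSet v).ncard) → HasPerfectPacking F G}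

/-! ### Complete tripartite graphs -/

/-- the complete tripartite graph with classes `{v | g v = i}` -/
def tri {V : Type} (g : V → Fin 3) : SimpleGraph V := (⊤ : SimpleGraph (Fin 3)).comap g

lemma tri_adj {V : Type} (g : V → Fin 3) (v w : V) : (tri g).Adj v w ↔ g v ≠ g w := by
  simp [tri]

/-- a colouring of a complete tripartite graph with three colours is the canonical one -/
lemma exists_part {V α : Type} [Fintype α] (hα : Fintype.card α = 3) (g : V → Fin 3)
    (hg : Function.Surjective g) (c : (tri g).Coloring α) :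
    ∃ τ : Fin 3 ≃ α, ∀ v, c v = τ (g v) := by
  classical
  choose r hr using hg
  have hinj : Function.Injective (fun i => c (r i)) := by
    intro i j hij
    by_contra hne
    have : (tri g).Adj (r i) (r j) := by
      rw [tri_adj, hr, hr]; exact hne
    exact c.valid this hij
  have hbij : Function.Bijective (fun i => c (r i)) := by
    rw [Fintype.bijective_iff_injective_and_card]
    exact ⟨hinj, by simp [hα]⟩
  refine ⟨Equiv.ofBijective _ hbij, fun v => ?_⟩
  obtain ⟨k, hk⟩ := hbij.2 (c v)
  have hk' : k = g v := by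
    by_contra hne
    have : (tri g).Adj (r k) v := by
      rw [tri_adj, hr]; exact hne
    exact c.valid this hk
  subst hk'
  exact hk.symm

lemma not_colorable_two {V : Type} (g : V → Fin 3) (hg : Function.Surjective g) :
    ¬ (tri g).Colorable 2 := by
  rintro ⟨c⟩
  choose r hr using hg
  have hinj : Function.Injective (fun i => c (r i)) := by
    intro i j hij
    by_contra hne
    have : (tri g).Adj (r i) (r j) := by
      rw [tri_adj, hr, hr]; exact hne
    exact c.valid this hij
  have := Fintype.card_le_of_injective _ hinj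
  simp at this

lemma chi_tri {V : Type} (g : V → Fin 3) (hg : Function.Surjective g) : chi (tri g) = 3 := by
  have h3 : (tri g).Colorable 3 := ⟨SimpleGraph.Coloring.mk g (by
    intro v w h; rwa [tri_adj] at h)⟩
  apply le_antisymm
  · exact Nat.sInf_le h3
  · have hmem : chi (tri g) ∈ {k : ℕ | (tri g).Colorable k} := Nat.sInf_mem ⟨3, h3⟩
    by_contra hlt
    push Not at hlt
    exact not_colorable_two g hg (SimpleGraph.Colorable.mono (by omega) hmem)

/-- class sizes of the graph `K_{1, p+1, p+2}` -/
def sz (p : ℕ) : Fin 3 → ℕ := ![1, p + 1, p + 2]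

section Pattern

variable (p : ℕ)

/-- the vertex set of `K_{1, p+1, p+2}` -/
abbrev VF : Type := Σ i : Fin 3, Fin (sz p i)

/-- the graph `K_{1, p+1, p+2}` -/
def FF : SimpleGraph (VF p) := tri (fun v : VF p => v.1)

lemma sz_pos (i : Fin 3) : 0 < sz p i := by
  fin_cases i <;> simp [sz]

lemma surj_fst : Function.Surjective (fun v : VF p => v.1) := fun i => ⟨⟨i, ⟨0, sz_pos p i⟩⟩, rfl⟩

lemma card_VF : Nat.card (VF p) = 2 * p + 4 := by
  rw [Nat.card_eq_fintype_card, Fintype.card_sigma, Fin.sum_univ_three]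
  simp only [Fintype.card_fin]
  simp [sz]
  ring

lemma ncard_part (i : Fin 3) : {v : VF p | v.1 = i}.ncard = sz p i := by
  have : {v : VF p | v.1 = i} = Set.range (fun x : Fin (sz p i) => (⟨i, x⟩ : VF p)) := by
    ext ⟨j, x⟩
    constructor
    · rintro rfl
      exact ⟨x, rfl⟩
    · rintro ⟨y, hy⟩
      exact (congrArg Sigma.fst hy).symm
  have hinj : Function.Injective (fun x : Fin (sz p i) => (⟨i, x⟩ : VF p)) := by
    intro x y hxy
    simpa using hxy
  rw [this, ← Set.image_univ, Set.ncard_image_of_injective _ hinj, Set.ncard_univ,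
    Nat.card_eq_fintype_card, Fintype.card_fin]

lemma chi_FF : chi (FF p) = 3 := chi_tri _ (surj_fst p)

lemma classSize_mem (c : (FF p).Coloring (Fin (chi (FF p)))) (i : Fin (chi (FF p))) :
    ∃ j, classSize (FF p) c i = sz p j := by
  obtain ⟨τ, hτ⟩ := exists_part (by simp [chi_FF p]) _ (surj_fst p) c
  refine ⟨τ.symm i, ?_⟩
  rw [← ncard_part]
  unfold classSize
  congr 1
  ext v
  have h1 : c v = τ v.1 := hτ v
  change c v = i ↔ v.1 = τ.symm i
  rw [Equiv.eq_symm_apply, ← h1]

/-- the canonical colouring -/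
noncomputable def canon : (FF p).Coloring (Fin (chi (FF p))) :=
  SimpleGraph.Coloring.mk (fun v => Fin.cast (chi_FF p).symm v.1) (by
    intro v w h
    have h' : v.1 ≠ w.1 := (tri_adj _ _ _).1 h
    intro h2
    exact h' (Fin.cast_injective _ h2))

lemma canon_apply (v : VF p) : canon p v = Fin.cast (chi_FF p).symm v.1 := rfl

lemma canon_opt : IsOptimal (FF p) (canon p) := by
  intro i
  obtain ⟨v, hv⟩ := surj_fst p (Fin.cast (chi_FF p) i)
  refine ⟨v, ?_⟩
  rw [canon_apply]
  change v.1 = _ at hv
  rw [hv]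
  rfl

lemma canon_size (i : Fin (chi (FF p))) :
    classSize (FF p) (canon p) i = sz p (Fin.cast (chi_FF p) i) := by
  rw [← ncard_part]
  unfold classSize
  congr 1
  ext v
  change canon p v = i ↔ v.1 = Fin.cast (chi_FF p) i
  rw [canon_apply]
  constructor
  · rintro rfl; rfl
  · intro h; rw [h]; rfl

lemma sigma_FF : sigma (FF p) = 1 := by
  have hne : (1 : ℕ) ∈ {m : ℕ | ∃ c : (FF p).Coloring (Fin (chi (FF p))),
      IsOptimal (FF p) c ∧ ∃ i, m = classSize (FF p) c i} := by
    refine ⟨canon p, canon_opt p, Fin.cast (chi_FF p).symm 0, ?_⟩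
    rw [canon_size]
    rfl
  apply le_antisymm
  · exact Nat.sInf_le hne
  · have hmem := Nat.sInf_mem ⟨_, hne⟩
    obtain ⟨c, _, i, hi⟩ := hmem
    obtain ⟨j, hj⟩ := classSize_mem p c i
    have : 0 < sz p j := sz_pos p j
    unfold sigma
    omega

lemma chiCr_FF : chiCr (FF p) = 2 * (2 * p + 4) / (2 * p + 3) := by
  unfold chiCr
  rw [chi_FF, sigma_FF, card_VF]
  push_cast
  ring_nf

lemma hcfOne_FF : HcfOne (FF p) := by
  refine ⟨fun h => absurd h (not_colorable_two _ (surj_fst p)), fun _ m hm => ?_⟩
  have h1 : (1 : ℕ) ∈ diffSet (FF p) := by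
    refine ⟨canon p, canon_opt p, Equiv.refl _, ?_, 1, by rw [chi_FF]; norm_num, ?_⟩
    · intro i j hij
      simp only [Equiv.refl_apply]
      rw [canon_size, canon_size]
      have hmono : Monotone (sz p) := by
        intro a b hab
        fin_cases a <;> fin_cases b <;> simp_all [sz]
      exact hmono (show (Fin.cast (chi_FF p) i).val ≤ (Fin.cast (chi_FF p) j).val from hij)
    · simp only [Equiv.refl_apply]
      rw [canon_size, canon_size]
      simp [sz, Fin.cast]
  exact Nat.dvd_one.1 (hm 1 h1)

lemma chiStar_FF : chiStar (FF p) = 2 * (2 * p + 4) / (2 * p + 3) := by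
  unfold chiStar
  rw [if_pos (hcfOne_FF p), chiCr_FF]

end Pattern

/-! ### Host graphs -/

/-- the value `p * p - p - 1` is not a sum of numbers `0`, `p`, `p + 1` -/
lemma no_sum {ι : Type} [Fintype ι] (p : ℕ) (f : ι → ℕ)
    (hf : ∀ i, f i = 0 ∨ f i = p ∨ f i = p + 1) (h : ∑ i, f i + p + 1 = p * p) : False := by
  have hdec : ∀ i, ∃ a c : ℕ, c ≤ a ∧ f i = p * a + c := by
    intro i
    rcases hf i with h | h | h
    · exact ⟨0, 0, le_rfl, by simp [h]⟩
    · exact ⟨1, 0, by omega, by simp [h]⟩
    · exact ⟨1, 1, by omega, by simp [h]⟩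
  choose a c hca hfac using hdec
  have hsum : ∑ i, f i = p * (∑ i, a i) + ∑ i, c i := by
    rw [Finset.mul_sum, ← Finset.sum_add_distrib]
    exact Finset.sum_congr rfl (fun i _ => hfac i)
  have hle : ∑ i, c i ≤ ∑ i, a i := Finset.sum_le_sum (fun i _ => hca i)
  rw [hsum] at h
  generalize (∑ i, a i) = A at *
  generalize (∑ i, c i) = C at *
  rcases Nat.lt_or_ge (A + 1) p with hlt | hge
  · nlinarith
  · nlinarith

/-- the key obstruction -/
lemma no_packing (p N n : ℕ) (g : Fin n → Fin 3) (hn : n = (2 * p + 4) * N)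
    (h0 : {w : Fin n | g w = 0}.ncard + p + 1 = N + p * p) : ¬ HasPerfectPacking (FF p) (tri g) := by
  classical
  rintro ⟨ι, φ, hφ⟩
  have v0 : VF p := ⟨0, ⟨0, sz_pos p 0⟩⟩
  have hfin : Finite ι := by
    have hinj : Function.Injective (fun i : ι => φ i v0) := by
      intro i j hij
      have := @hφ.1 (i, v0) (j, v0) hij
      exact congrArg Prod.fst this
    exact Finite.of_injective _ hinj
  have : Fintype ι := Fintype.ofFinite ι
  have hcard : Fintype.card ι = N := by
    have h1 : Nat.card (ι × VF p) = Nat.card (Fin n) := Nat.card_congr (Equiv.ofBijective _ hφ)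
    rw [Nat.card_prod, card_VF, Nat.card_eq_fintype_card, Nat.card_eq_fintype_card,
      Fintype.card_fin, hn, mul_comm] at h1
    exact Nat.eq_of_mul_eq_mul_left (by omega) h1
  have hcol : ∀ i : ι, ∃ j, (Finset.univ.filter (fun v : VF p => g (φ i v) = 0)).card = sz p j := by
    intro i
    let c : (FF p).Coloring (Fin 3) := SimpleGraph.Coloring.mk (fun v => g (φ i v)) (by
      intro v w h
      have := (φ i).map_adj h
      exact (tri_adj _ _ _).1 this)
    obtain ⟨τ, hτ⟩ := exists_part (by simp) _ (surj_fst p) c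
    refine ⟨τ.symm 0, ?_⟩
    rw [← ncard_part, Set.ncard_eq_toFinset_card']
    congr 1
    ext v
    have h1 : g (φ i v) = τ v.1 := hτ v
    simp only [Finset.mem_filter, Finset.mem_univ, true_and, Set.mem_toFinset]
    change g (φ i v) = 0 ↔ v.1 = τ.symm 0
    rw [Equiv.eq_symm_apply, ← h1]
  have hsum : (Finset.univ.filter (fun w : Fin n => g w = 0)).card
      = ∑ i : ι, (Finset.univ.filter (fun v : VF p => g (φ i v) = 0)).card := by
    simp only [Finset.card_filter]
    rw [← hφ.sum_comp (fun w => if g w = 0 then 1 else 0), Fintype.sum_prod_type]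
  have h0' : (Finset.univ.filter (fun w : Fin n => g w = 0)).card + p + 1 = N + p * p := by
    rw [← h0, Set.ncard_eq_toFinset_card']
    congr 3
    ext v
    simp
  choose j hj using hcol
  have hf : ∀ i, (sz p (j i) - 1 = 0 ∨ sz p (j i) - 1 = p ∨ sz p (j i) - 1 = p + 1) := by
    intro i
    generalize j i = k
    fin_cases k <;> simp [sz]
  refine no_sum p (fun i => sz p (j i) - 1) hf ?_
  have h3 : ∑ i : ι, (sz p (j i) - 1) + N = ∑ i : ι, sz p (j i) := by
    rw [← hcard, ← Finset.card_univ, Finset.card_eq_sum_ones, ← Finset.sum_add_distrib]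
    refine Finset.sum_congr rfl (fun i _ => ?_)
    have := sz_pos p (j i)
    omega
  have h4 : ∑ i : ι, (Finset.univ.filter (fun v : VF p => g (φ i v) = 0)).card
      = ∑ i : ι, sz p (j i) := Finset.sum_congr rfl (fun i _ => hj i)
  rw [hsum, h4] at h0'
  change ∑ i : ι, (sz p (j i) - 1) + p + 1 = p * p
  omega

/-- a map `Fin n → Fin 3` with prescribed fibre sizes -/
lemma exists_map (n : ℕ) (t : Fin 3 → ℕ) (h : ∑ i, t i = n) :
    ∃ g : Fin n → Fin 3, ∀ i, {w : Fin n | g w = i}.ncard = t i := by
  have hc : Fintype.card (Fin n) = Fintype.card (Σ i : Fin 3, Fin (t i)) := by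
    rw [Fintype.card_sigma, Fintype.card_fin, ← h]
    simp
  let e : Fin n ≃ Σ i : Fin 3, Fin (t i) := Fintype.equivOfCardEq hc
  refine ⟨fun w => (e w).1, fun i => ?_⟩
  have : {w : Fin n | (e w).1 = i} = Set.range (fun x : Fin (t i) => e.symm ⟨i, x⟩) := by
    ext w
    constructor
    · intro hw
      refine ⟨Fin.cast (congrArg t hw) (e w).2, ?_⟩
      change (e w).1 = i at hw
      subst hw
      simp
    · rintro ⟨x, rfl⟩
      change (e (e.symm ⟨i, x⟩)).1 = i
      rw [Equiv.apply_symm_apply]
  have hinj : Function.Injective (fun x : Fin (t i) => e.symm ⟨i, x⟩) := by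
    intro x y hxy
    have := e.symm.injective hxy
    simpa using this
  rw [this, ← Set.image_univ, Set.ncard_image_of_injective _ hinj, Set.ncard_univ,
    Nat.card_eq_fintype_card, Fintype.card_fin]

/-- degrees in a complete tripartite graph -/
lemma degree_tri {n : ℕ} (g : Fin n → Fin 3) (v : Fin n) :
    ((tri g).neighborSet v).ncard + {w : Fin n | g w = g v}.ncard = n := by
  have : (tri g).neighborSet v = {w : Fin n | g w = g v}ᶜ := by
    ext w
    rw [SimpleGraph.mem_neighborSet, tri_adj, Set.mem_compl_iff]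
    exact ne_comm
  rw [this, add_comm, Set.ncard_add_ncard_compl, Nat.card_eq_fintype_card, Fintype.card_fin]

/-- the threshold is larger than the minimum degree of every graph without a perfect packing -/
lemma lt_threshold {V : Type} (F : SimpleGraph V) {n : ℕ} (hn : 0 < n) (G : SimpleGraph (Fin n))
    (hG : ¬ HasPerfectPacking F G) (X : ℝ) (hX : ∀ v, X ≤ (G.neighborSet v).ncard) :
    X < packingThreshold F n := by
  by_contra hcon
  push Not at hcon
  have hne : n ∈ {k : ℕ | ∀ G : SimpleGraph (Fin n),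
      (∀ v, k ≤ (G.neighborSet v).ncard) → HasPerfectPacking F G} := by
    intro G hG
    exfalso
    have h1 := hG ⟨0, hn⟩
    have h2 : G.neighborSet ⟨0, hn⟩ ⊂ Set.univ := by
      rw [Set.ssubset_univ_iff]
      intro h
      have : (⟨0, hn⟩ : Fin n) ∈ G.neighborSet ⟨0, hn⟩ := by rw [h]; trivial
      exact G.loopless.irrefl _ this
    have h3 := Set.ncard_lt_ncard h2
    rw [Set.ncard_univ, Nat.card_eq_fintype_card, Fintype.card_fin] at h3
    omega
  have hmem := Nat.sInf_mem ⟨n, hne⟩
  refine hG (hmem G (fun v => ?_))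
  have h1 := hcon.trans (hX v)
  exact_mod_cast h1

/-- For every constant `K` there is a graph `F` with at least one edge such that for infinitely
many `n` divisible by `|F|` there is a graph `G` on `n` vertices with all degrees at least
`(1 - 1 / χ*(F)) n + K |F|` and without a perfect `F`-packing; in particular the threshold is
larger than that number. -/
theorem result (K : ℕ) : ∃ (V : Type) (_ : Finite V) (F : SimpleGraph V), (∃ a b, F.Adj a b) ∧
    ∀ n₀ : ℕ, ∃ n : ℕ, n₀ ≤ n ∧ Nat.card V ∣ n ∧
      (∃ G : SimpleGraph (Fin n),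
        (∀ v, (1 - 1 / chiStar F) * (n : ℝ) + (K : ℝ) * (Nat.card V : ℝ)
            ≤ ((G.neighborSet v).ncard : ℝ)) ∧
        ¬ HasPerfectPacking F G) ∧
      (1 - 1 / chiStar F) * (n : ℝ) + (K : ℝ) * (Nat.card V : ℝ) < (packingThreshold F n : ℝ) := by
  obtain ⟨p, hp⟩ : ∃ p, p = 4 * K + 4 := ⟨_, rfl⟩
  obtain ⟨r, hr⟩ : ∃ r, r = 2 * K + 2 := ⟨_, rfl⟩
  have hpr : p = 2 * r := by omega
  refine ⟨VF p, inferInstance, FF p, ?_, fun n₀ => ?_⟩
  · refine ⟨⟨0, ⟨0, sz_pos p 0⟩⟩, ⟨1, ⟨0, sz_pos p 1⟩⟩, ?_⟩
    unfold FF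
    rw [tri_adj]
    simp
  · obtain ⟨M, hM⟩ : ∃ M, M = n₀ + p * p + K * (2 * p + 4) := ⟨_, rfl⟩
    obtain ⟨N, hN⟩ : ∃ N, N = 2 * M + 1 := ⟨_, rfl⟩
    obtain ⟨n, hn⟩ : ∃ n, n = (2 * p + 4) * N := ⟨_, rfl⟩
    obtain ⟨t, ht⟩ : ∃ t, t + 2 * r * r = M * (4 * r + 3) + 3 * r + 2 :=
      ⟨M * (4 * r + 3) + 3 * r + 2 - 2 * r * r, Nat.sub_add_cancel (by subst hpr; nlinarith)⟩
    obtain ⟨s, hs⟩ : ∃ s, s + p + 1 = N + p * p := ⟨N + p * p - (p + 1),
      by have : p ≤ p * p := Nat.le_mul_self p
         omega⟩
    have hsum : s + 2 * t = n := by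
      subst hpr hn hN
      nlinarith
    obtain ⟨g, hg⟩ := exists_map n ![s, t, t] (by
      rw [Fin.sum_univ_three]
      simp
      omega)
    have h0 : {w : Fin n | g w = 0}.ncard = s := by simpa using hg 0
    have h1 : {w : Fin n | g w = 1}.ncard = t := by simpa using hg 1
    have h2 : {w : Fin n | g w = 2}.ncard = t := by simpa using hg 2
    have hnp : ¬ HasPerfectPacking (FF p) (tri g) := by
      refine no_packing p N n g hn ?_
      rw [h0]; exact hs
    have hbound : (1 - 1 / chiStar (FF p)) * (n : ℝ) + (K : ℝ) * (Nat.card (VF p) : ℝ)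
        = (2 * p + 5) * N / 2 + K * (2 * p + 4) := by
      rw [chiStar_FF, card_VF, hn]
      have hpos : (2 * (p : ℝ) + 4) ≠ 0 := by positivity
      have hpos' : (2 * (p : ℝ) + 3) ≠ 0 := by positivity
      push_cast
      field_simp
      ring
    have hdeg : ∀ v, (1 - 1 / chiStar (FF p)) * (n : ℝ) + (K : ℝ) * (Nat.card (VF p) : ℝ)
        ≤ (((tri g).neighborSet v).ncard : ℝ) := by
      intro v
      rw [hbound]
      have hd := degree_tri g v
      have hcase : {w : Fin n | g w = g v}.ncard = s ∨ {w : Fin n | g w = g v}.ncard = t := by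
        have : g v = 0 ∨ g v = 1 ∨ g v = 2 := by
          generalize g v = k
          fin_cases k <;> simp
        rcases this with h | h | h
        · left; rw [h]; exact h0
        · right; rw [h]; exact h1
        · right; rw [h]; exact h2
      have hnat : (2 * p + 5) * N + 2 * (K * (2 * p + 4)) ≤ 2 * ((tri g).neighborSet v).ncard := by
        rcases hcase with h | h
        · rw [h] at hd
          have e1 : ((tri g).neighborSet v).ncard = 2 * t := by omega
          rw [e1]
          have e2 : 2 * (2 * t) + 2 * (p * p) = 2 * ((2 * p + 3) * N) + 2 * (p + 1) := by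
            subst hpr hN
            nlinarith
          have e3 : 2 * (p * p) + 2 * (K * (2 * p + 4)) ≤ (2 * p + 1) * N := by
            have : M ≤ N := by omega
            nlinarith
          nlinarith
        · rw [h] at hd
          have e1 : ((tri g).neighborSet v).ncard = s + t := by omega
          rw [e1]
          subst hp
          have : r * r = (2 * K + 2) * (2 * K + 2) := by rw [hr]
          subst hr
          nlinarith
      have hreal : ((2 * p + 5) * N + 2 * (K * (2 * p + 4)) : ℝ)
          ≤ 2 * (((tri g).neighborSet v).ncard : ℝ) := by exact_mod_cast hnat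
      linarith
    refine ⟨n, ?_, ?_, ⟨tri g, hdeg, hnp⟩, ?_⟩
    · rw [hn]
      nlinarith
    · rw [card_VF, hn]
      exact Dvd.intro _ rfl
    · refine lt_threshold (FF p) ?_ (tri g) hnp _ hdeg
      rw [hn, hN]
      positivity

/-- The negation of Q1 itself (the case `K = 1`). -/
theorem not_Q1 : ¬ ∀ (V : Type) (_ : Finite V) (F : SimpleGraph V), (∃ a b, F.Adj a b) →
    ∃ n₀ : ℕ, ∀ n : ℕ, n₀ ≤ n → Nat.card V ∣ n →
      (packingThreshold F n : ℝ) ≤ (1 - 1 / chiStar F) * (n : ℝ) + (Nat.card V : ℝ) := by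
  intro h
  obtain ⟨V, hV, F, hF, hF2⟩ := result 1
  obtain ⟨n₀, hn₀⟩ := h V hV F hF
  obtain ⟨n, h1, h2, _, h3⟩ := hF2 n₀
  have := hn₀ n h1 h2
  push_cast at h3
  linarith

end Pool.Agent.Results.MP_130313_co.NoLinearConstant
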